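import Mathlib

/-!
# MP_6383d0_co / Kim: definitions

Goal: triangle-free graphs on `n ≥ c t² / log t` vertices without independent sets of size `t`
(Kim's theorem), by two overlaid blow-ups of random graphs (see `Paper.md` in this folder).
-/

namespace Pool.Agent.Lib.MP_6383d0_co.Kim

open Finset

/-- The proportion of the functions `α → Fin P` that have the property `E`. -/
noncomputable def pr {α : Type} [Fintype α] (P : ℕ) (E : (α → Fin P) → Prop) : ℝ :=
  ((Set.ncard {f : α → Fin P | E f} : ℕ) : ℝ) / (P : ℝ) ^ Fintype.card α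

/-- The bit of the ordered pair `(x, y)` is a hit. -/
def hit {N P : ℕ} (b : Fin N × Fin N → Fin P) (x y : Fin N) : Prop := (b (x, y) : ℕ) = 0

instance {N P : ℕ} (b : Fin N × Fin N → Fin P) (x y : Fin N) : Decidable (hit b x y) :=
  inferInstanceAs (Decidable ((b (x, y) : ℕ) = 0))

/-- The random graph: `x` and `y` are adjacent if one of the two bits of the pair is a hit. -/
def Gr {N P : ℕ} (b : Fin N × Fin N → Fin P) : SimpleGraph (Fin N) where
  Adj x y := x ≠ y ∧ (hit b x y ∨ hit b y x)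
  symm := ⟨fun _ _ h => ⟨h.1.symm, h.2.symm⟩⟩
  loopless := ⟨fun _ h => h.1 rfl⟩

/-- The transposed bits. -/
def tr {N P : ℕ} (b : Fin N × Fin N → Fin P) : Fin N × Fin N → Fin P := fun q => b (q.2, q.1)

/-- The number of hits of the row `z` in the set `Y`. -/
def od {N P : ℕ} (b : Fin N × Fin N → Fin P) (z : Fin N) (Y : Finset (Fin N)) : ℕ :=
  (Y.filter (fun y => hit b z y)).card

/-! ## Parameters (functions of `j`) -/

/-- number of rows = number of columns -/
def NN (j : ℕ) : ℕ := 2 ^ j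
/-- `1 / PP j` is the probability of a hit; about `√(N log N)` -/
def PP (j : ℕ) : ℕ := Nat.sqrt (j * 2 ^ j)
/-- a large constant -/
def AA : ℕ := 2 ^ 25
/-- one third of the independence number -/
def mm (j : ℕ) : ℕ := AA * j * PP j
/-- bound for the number of hits in a row -/
def DD (j : ℕ) : ℕ := 6 * (NN j / PP j + 1)
/-- smallest size of the sets `Y` in `Good` -/
def ss (j : ℕ) : ℕ := mm j / (48 * j ^ 2)

/-- The second moment condition for the bits `b`. -/
def Good (j : ℕ) (b : Fin (NN j) × Fin (NN j) → Fin (PP j)) : Prop :=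
  ∀ Y : Finset (Fin (NN j)), ss j ≤ Y.card → Y.card ≤ mm j →
    32 * ∑ z, (od b z Y) ^ 2 ≤ Y.card ^ 2

/-- The threshold for the number of rows with at least `T` hits in a set of size `s`. -/
def qq (j s T : ℕ) : ℕ :=
  if 512 * T ^ 3 * j ≤ s then s ^ 2 / (512 * T ^ 3) + 1 else 48 * s / T + 1

/-- The bits `b` have no large deviations: row hit numbers are at most `DD j`, and few rows have
at least `T` hits in `Y`, for all powers of two `T ≥ max (2, 11 |Y| / P)`. -/
def Tame (j : ℕ) (b : Fin (NN j) × Fin (NN j) → Fin (PP j)) : Prop :=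
  (∀ z, od b z univ ≤ DD j) ∧
  ∀ Y : Finset (Fin (NN j)), ss j ≤ Y.card → Y.card ≤ mm j → ∀ i : ℕ, 1 ≤ i → 2 ^ i ≤ DD j →
    11 * Y.card ≤ 2 ^ i * PP j →
    (univ.filter (fun z => 2 ^ i ≤ od b z Y)).card < qq j Y.card (2 ^ i)

/-- `F'` is the `K_k`-free graph that is left when the edges of a maximal family `𝒯` of
edge-disjoint `k`-cliques are removed from `F`. -/
structure Rem (k : ℕ) {N : ℕ} (F F' : SimpleGraph (Fin N)) (𝒯 : Finset (Finset (Fin N))) :
    Prop where
  le : F' ≤ F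
  free : F'.CliqueFree k
  tri : ∀ T ∈ 𝒯, F.IsNClique k T
  disj : ∀ T ∈ 𝒯, ∀ T' ∈ 𝒯, T ≠ T' → (T ∩ T').card ≤ 1
  cov : ∀ x y, F.Adj x y → ¬ F'.Adj x y → ∃ T ∈ 𝒯, x ∈ T ∧ y ∈ T

/-- The main property of the pair `(b1, b2)`: every set `I` of `mm j` points with different
`ρ`-coordinates contains two points whose `ρ`-coordinates are joined by an edge of `F'` and whose
`σ`-coordinates have no common neighbour in `Gr b2`. -/
def MainOK (j : ℕ) {V : Type} (ρ σ : V → Fin (NN j))
    (b1 b2 : Fin (NN j) × Fin (NN j) → Fin (PP j)) : Prop :=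
  ∀ F' 𝒯, Rem 3 (Gr b1) F' 𝒯 → ∀ I : Finset V, I.card = mm j → Set.InjOn ρ (I : Set V) →
    ∃ u ∈ I, ∃ v ∈ I, F'.Adj (ρ u) (ρ v) ∧
      ∀ z, ¬ ((Gr b2).Adj (σ u) z ∧ (Gr b2).Adj (σ v) z)

end Pool.Agent.Lib.MP_6383d0_co.Kim
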