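import Mathlib
import Pool.Agent.Lib.MP_6383d0_co.Kim.Defs
import Pool.Agent.Lib.MP_6383d0_co.H51.Defs

/-!
# MP_6383d0_co / Kim: interfaces of the modules (see `Paper.md` in this folder)
-/

namespace Pool.Agent.Lib.MP_6383d0_co.Kim

open Finset Filter

/-- PR: elementary facts about the uniform distribution on `α → Fin P`. -/
def PR_S : Prop :=
  ∀ (α : Type) [Fintype α] (P : ℕ), 0 < P →
    (∀ E : (α → Fin P) → Prop, 0 ≤ pr P E ∧ pr P E ≤ 1) ∧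
    (∀ E E' : (α → Fin P) → Prop, (∀ b, E b → E' b) → pr P E ≤ pr P E') ∧
    (∀ (ι : Type) (s : Finset ι) (E : ι → (α → Fin P) → Prop),
      pr P (fun b => ∃ i ∈ s, E i b) ≤ ∑ i ∈ s, pr P (E i)) ∧
    (∀ (A : Finset α) (C : α → Finset (Fin P)),
      pr P (fun b => ∀ a ∈ A, b a ∈ C a) = ∏ a ∈ A, (((C a).card : ℝ) / P)) ∧
    (∀ (A : Finset α), pr P (fun b => ∀ a ∈ A, (b a : ℕ) = 0) = (1 / (P : ℝ)) ^ A.card) ∧
    (∀ E : (α → Fin P) → Prop, pr P E < 1 → ∃ b, ¬ E b)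

/-- CHOOSE: the usual bound for binomial coefficients. -/
def CHOOSE_S : Prop :=
  ∀ n k : ℕ, 1 ≤ k → (n.choose k : ℝ) ≤ (Real.exp 1 * n / k) ^ k

/-- TAIL: lower tail of the number of hits in `R`. -/
def TAIL_S : Prop :=
  ∀ (α : Type) [Fintype α] [DecidableEq α] (P : ℕ), 0 < P → ∀ (R : Finset α) (h : ℕ),
    pr P (fun b : α → Fin P => (R.filter (fun a => (b a : ℕ) = 0)).card ≤ h) ≤
      2 ^ h * (1 - 1 / (2 * (P : ℝ))) ^ R.card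

/-- LD: large deviations of the number of hits of the rows in the set `Y`. -/
def LD_S : Prop :=
  ∀ (N P : ℕ), 0 < P → ∀ (Y : Finset (Fin N)) (q T : ℕ),
    pr P (fun b : Fin N × Fin N → Fin P =>
      q ≤ (univ.filter (fun z => T ≤ od b z Y)).card) ≤
      (N.choose q : ℝ) * ((Y.card.choose T : ℝ) * (1 / (P : ℝ)) ^ T) ^ q

/-- TRANS: transposition preserves `pr`. -/
def TRANS_S : Prop :=
  ∀ (N P : ℕ) (E : (Fin N × Fin N → Fin P) → Prop), pr P (fun b => E (tr b)) = pr P E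

/-- TRI: edge-disjoint `k`-cliques that share an edge with `X`. -/
def TRI_S : Prop :=
  ∀ (k N P : ℕ), 2 ≤ k → 0 < P → ∀ (X : Finset (Fin N)) (τ : ℕ),
    pr P (fun b : Fin N × Fin N → Fin P => ∃ 𝒯 : Finset (Finset (Fin N)), 𝒯.card = τ ∧
      (∀ T ∈ 𝒯, (Gr b).IsNClique k T ∧ 2 ≤ (T ∩ X).card) ∧
      (∀ T ∈ 𝒯, ∀ T' ∈ 𝒯, T ≠ T' → (T ∩ T').card ≤ 1)) ≤
    ((2 ^ (k.choose 2) * X.card ^ 2 * N ^ (k - 2)).choose τ : ℝ) *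
      (1 / (P : ℝ)) ^ (k.choose 2 * τ)

/-- REM: a maximal family of edge-disjoint `k`-cliques. -/
def REM_S : Prop :=
  ∀ (k N : ℕ), 2 ≤ k → ∀ F : SimpleGraph (Fin N), ∃ F' 𝒯, Rem k F F' 𝒯

/-- PARA: facts about the parameters. -/
def PARA_S : Prop :=
  ∀ᶠ j in atTop, 8 ≤ j ∧ 0 < PP j ∧ PP j ^ 2 ≤ j * 2 ^ j ∧ j * 2 ^ j ≤ 2 * PP j ^ 2 ∧
    1 ≤ ss j ∧ 49152 * DD j ≤ ss j ∧ mm j ≤ 2 ^ j ∧ 8 ≤ mm j ∧ 48 * j ^ 2 * ss j ≤ mm j ∧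
    5632 * DD j ≤ PP j ∧ j ^ 2 ≤ 2 ^ j ∧ 6 * NN j ≤ PP j * DD j ∧ 2 * j ≤ DD j

/-- NUMMID: the numerical estimate for the thresholds `T` with `512 T³ j ≤ s`. -/
def NUMMID_S : Prop :=
  ∀ᶠ j in atTop, ∀ s T : ℕ, 1 ≤ s → 2 ≤ T → 11 * s ≤ T * PP j → 512 * T ^ 3 * j ≤ s →
    ((NN j).choose s : ℝ) * (((NN j).choose (qq j s T) : ℝ) *
      ((s.choose T : ℝ) * (1 / (PP j : ℝ)) ^ T) ^ (qq j s T)) ≤ (1 / 2) ^ (3 * j)

/-- NUMHIGH: the numerical estimate for the thresholds `T` with `s < 512 T³ j`. -/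
def NUMHIGH_S : Prop :=
  ∀ᶠ j in atTop, ∀ s T : ℕ, ss j ≤ s → s ≤ mm j → 2 ≤ T → s < 512 * T ^ 3 * j →
    ((NN j).choose s : ℝ) * (((NN j).choose (qq j s T) : ℝ) *
      ((s.choose T : ℝ) * (1 / (PP j : ℝ)) ^ T) ^ (qq j s T)) ≤ (1 / 2) ^ (3 * j)

/-- TAME: almost all bits are tame. -/
def TAME_S : Prop :=
  ∀ᶠ j in atTop, pr (PP j) (fun b : Fin (NN j) × Fin (NN j) → Fin (PP j) => ¬ Tame j b) ≤ 1 / 16

/-- DET: tame bits satisfy the second moment condition. -/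
def DET_S : Prop :=
  ∀ᶠ j in atTop, ∀ b : Fin (NN j) × Fin (NN j) → Fin (PP j), Tame j b → Tame j (tr b) → Good j b

/-- LAYER: few pairs of a set of `mm j` points have `σ`-coordinates with a common neighbour. -/
def LAYER_S : Prop :=
  ∀ᶠ j in atTop, ∀ (V : Type) [Fintype V] [DecidableEq V] (σ : V → Fin (NN j)),
    (∀ y, (univ.filter (fun v => σ v = y)).card ≤ 6 * j ^ 2) →
    ∀ b : Fin (NN j) × Fin (NN j) → Fin (PP j), Good j b → Good j (tr b) →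
    ∀ I : Finset V, I.card = mm j → ∀ J : Finset (V × V), J ⊆ I ×ˢ I →
      (∀ p ∈ J, ∃ z, (Gr b).Adj (σ p.1) z ∧ (Gr b).Adj (σ p.2) z) →
      8 * J.card ≤ 3 * mm j ^ 2

/-- MAINDET: the deterministic half of MAIN. If `I` is a set of points on which `ρ` is injective,
`R` a set of ordered pairs of different points of `I`, more than `k (k-1) τ` bits of `R` are hits
and there are no `τ` edge-disjoint `k`-cliques with an edge in `ρ(I)`, then a pair of `R` is joined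
by an edge of `F'`. -/
def MAINDET_S : Prop :=
  ∀ (k N P τ : ℕ) (V : Type) [DecidableEq V] (ρ : V → Fin N)
    (b : Fin N × Fin N → Fin P) (F' : SimpleGraph (Fin N)) (𝒯 : Finset (Finset (Fin N))),
    2 ≤ k → Rem k (Gr b) F' 𝒯 → ∀ (I : Finset V) (R : Finset (V × V)),
    Set.InjOn ρ (I : Set V) → R ⊆ I ×ˢ I → (∀ p ∈ R, p.1 ≠ p.2) →
    (¬ ∃ 𝒮 : Finset (Finset (Fin N)), 𝒮.card = τ ∧
      (∀ T ∈ 𝒮, (Gr b).IsNClique k T ∧ 2 ≤ (T ∩ I.image ρ).card) ∧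
      (∀ T ∈ 𝒮, ∀ T' ∈ 𝒮, T ≠ T' → (T ∩ T').card ≤ 1)) →
    k * (k - 1) * τ < (R.filter (fun p => hit b (ρ p.1) (ρ p.2))).card →
    ∃ p ∈ R, F'.Adj (ρ p.1) (ρ p.2)

/-- NUMMAIN: the numerical estimates for MAIN (`h` = hit bound, `τ` = number of triangles). -/
def NUMMAIN_S : Prop :=
  ∀ᶠ j in atTop, ∃ h τ : ℕ, 6 * τ ≤ h ∧
    (((j ^ 2 * 2 ^ j).choose (mm j) : ℕ) : ℝ) *
      ((2 : ℝ) ^ h * (1 - 1 / (2 * (PP j : ℝ))) ^ ((mm j) ^ 2 / 2) +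
        ((2 ^ (Nat.choose 3 2) * (mm j) ^ 2 * (NN j) ^ (3 - 2)).choose τ : ℝ) *
          (1 / (PP j : ℝ)) ^ (Nat.choose 3 2 * τ)) ≤ 1 / 16

/-- MAIN: for good `b2` almost all `b1` satisfy `MainOK`. -/
def MAIN_S : Prop :=
  ∀ᶠ j in atTop, ∀ (V : Type) [Fintype V] [DecidableEq V] (ρ σ : V → Fin (NN j)),
    Fintype.card V = j ^ 2 * 2 ^ j →
    (∀ y, (univ.filter (fun v => σ v = y)).card ≤ 6 * j ^ 2) →
    ∀ b2 : Fin (NN j) × Fin (NN j) → Fin (PP j), Good j b2 → Good j (tr b2) →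
      pr (PP j) (fun b1 => ¬ MainOK j ρ σ b1 b2) ≤ 1 / 16

/-- GAM: a map `col` of the `j² 2^j` points to the `2^j` columns such that every set of `3 mm j`
points meets at least `mm j` rows or at least `mm j` columns. -/
def GAM_S : Prop :=
  ∀ᶠ j in atTop, ∃ col : Fin (NN j) × Fin (j ^ 2) → Fin (NN j),
    (∀ y, (univ.filter (fun v => col v = y)).card ≤ 6 * j ^ 2) ∧
    ∀ I : Finset (Fin (NN j) × Fin (j ^ 2)), I.card = 3 * mm j →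
      mm j ≤ (I.image Prod.fst).card ∨ mm j ≤ (I.image col).card

/-- COMB: the overlay of the two blow-ups (no probability). -/
def COMB_S : Prop :=
  ∀ (N m : ℕ) (V : Type) [DecidableEq V] (ρ σ : V → Fin N)
    (F1 F2 F1' F2' : SimpleGraph (Fin N)), F1' ≤ F1 → F2' ≤ F2 → F1'.CliqueFree 3 →
    F2'.CliqueFree 3 →
    (∀ I : Finset V, I.card = 3 * m → m ≤ (I.image ρ).card ∨ m ≤ (I.image σ).card) →
    (∀ I : Finset V, I.card = m → Set.InjOn ρ (I : Set V) → ∃ u ∈ I, ∃ v ∈ I,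
      F1'.Adj (ρ u) (ρ v) ∧ ∀ z, ¬ (F2.Adj (σ u) z ∧ F2.Adj (σ v) z)) →
    (∀ I : Finset V, I.card = m → Set.InjOn σ (I : Set V) → ∃ u ∈ I, ∃ v ∈ I,
      F2'.Adj (σ u) (σ v) ∧ ∀ z, ¬ (F1.Adj (ρ u) z ∧ F1.Adj (ρ v) z)) →
    ∃ G : SimpleGraph V, G.CliqueFree 3 ∧ ∀ I : Finset V, I.card = 3 * m → ¬ G.IsIndepSet I

/-- KIM: the graphs. -/
def KIM_S : Prop :=
  ∀ᶠ j in atTop, ∃ G : SimpleGraph (Fin (NN j) × Fin (j ^ 2)), G.CliqueFree 3 ∧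
    ∀ I : Finset (Fin (NN j) × Fin (j ^ 2)), I.card = 3 * mm j → ¬ G.IsIndepSet I

/-- RAM: Kim's theorem `R(3,t) ≥ c t² / log t`. -/
def RAM_S : Prop :=
  ∃ c : ℝ, 0 < c ∧ ∀ᶠ t : ℕ in atTop, ∃ n : ℕ, c * (t : ℝ) ^ 2 / Real.log t ≤ n ∧
    ∃ G : SimpleGraph (Fin n), G.CliqueFree 3 ∧ G.indepNum < t

/-- RAMK: Spencer's bound `R(k,t) ≥ c (t / log t)^((k+1)/2)`. -/
def RAMK_S : Prop :=
  ∀ k : ℕ, 3 ≤ k → ∃ c : ℝ, 0 < c ∧ ∀ᶠ t : ℕ in atTop, ∃ n : ℕ,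
    c * ((t : ℝ) / Real.log t) ^ (((k : ℝ) + 1) / 2) ≤ n ∧
    ∃ G : SimpleGraph (Fin n), G.CliqueFree k ∧ G.indepNum < t

/-- LOW: the lower bounds for `M_k(l)`. -/
def LOW_S : Prop :=
  (∃ c : ℝ, 0 < c ∧ ∀ l : ℕ, 2 ≤ l → c * ((l : ℝ) / Real.log l) ≤ M 3 l) ∧
  (∃ c : ℝ, 0 < c ∧ ∀ k : ℕ, 3 ≤ k → c * ((k : ℝ) ^ 2 / Real.log k) ≤ M k 1)

/-- LOWK: lower bounds for `M_k(l)` for fixed `k` and for fixed `l`. -/
def LOWK_S : Prop :=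
  (∀ k : ℕ, 3 ≤ k → ∃ c : ℝ, 0 < c ∧ ∀ l : ℕ, 2 ≤ l →
    c * ((l : ℝ) ^ (((k : ℝ) - 1) / 2) / Real.log l ^ (((k : ℝ) + 1) / 2)) ≤ M k l) ∧
  (∀ l : ℕ, 1 ≤ l → ∃ c : ℝ, 0 < c ∧ ∀ k : ℕ, 3 ≤ k →
    c * ((k : ℝ) / Real.log k) ^ (((l : ℝ) + 3) / 2) ≤ M k l)

end Pool.Agent.Lib.MP_6383d0_co.Kim
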